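import Pool.Agent.H99.Trap.Defs2

namespace Pool.Agent.H99.Trap

open MeasureTheory ProbabilityTheory Filter
open scoped ENNReal NNReal Topology

namespace I1

lemma integral_le_of_lintegral {α : Type*} [MeasurableSpace α] {μ : Measure α} (f : α → ℝ)
    {K : ℝ} (hK : 0 ≤ K) (h : ∫⁻ a, ENNReal.ofReal (f a) ∂μ ≤ ENNReal.ofReal K) :
    ∫ a, f a ∂μ ≤ K := by
  by_cases hf : Integrable f μ
  · rw [integral_eq_lintegral_pos_part_sub_lintegral_neg_part hf]
    have h1 : (∫⁻ a, ENNReal.ofReal (f a) ∂μ).toReal ≤ K := by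
      rw [← ENNReal.toReal_ofReal hK]
      exact ENNReal.toReal_mono ENNReal.ofReal_ne_top h
    have h2 : 0 ≤ (∫⁻ a, ENNReal.ofReal (-f a) ∂μ).toReal := ENNReal.toReal_nonneg
    linarith
  · rw [integral_undef hf]
    exact hK

/-- the positive part of an integral -/
lemma ofReal_integral_le {α : Type*} [MeasurableSpace α] {μ : Measure α} (f : α → ℝ) :
    ENNReal.ofReal (∫ a, f a ∂μ) ≤ ∫⁻ a, ENNReal.ofReal (f a) ∂μ := by
  by_cases ht : ∫⁻ a, ENNReal.ofReal (f a) ∂μ = ∞
  · rw [ht]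
    exact le_top
  · rw [← ENNReal.ofReal_toReal ht]
    apply ENNReal.ofReal_le_ofReal
    apply integral_le_of_lintegral f ENNReal.toReal_nonneg
    rw [ENNReal.ofReal_toReal ht]

/-- change of variable in a lower integral over the unit interval -/
lemma lintegral_UI_scale {t : ℝ} (ht : 0 < t) (g : ℝ → ℝ≥0∞) :
    ∫⁻ u : UI, g (u * t) = ENNReal.ofReal t⁻¹ * ∫⁻ s in Set.Icc 0 t, g s := by
  have h1 : ∫⁻ u : UI, g (u * t) = ∫⁻ u in Set.Icc (0:ℝ) 1, g (u * t) :=
    lintegral_subtype_comap measurableSet_Icc (fun u : ℝ => g (u * t))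
  rw [h1, ← lintegral_indicator measurableSet_Icc, ← lintegral_indicator measurableSet_Icc]
  have h2 : (fun u : ℝ => (Set.Icc (0:ℝ) 1).indicator (fun u => g (u * t)) u) =
      fun u : ℝ => (fun s => (Set.Icc (0:ℝ) t).indicator g s) (u * t) := by
    funext u
    by_cases hu : u ∈ Set.Icc (0:ℝ) 1
    · have : u * t ∈ Set.Icc (0:ℝ) t := ⟨mul_nonneg hu.1 ht.le, by nlinarith [hu.2]⟩
      rw [Set.indicator_of_mem hu]
      simp only
      rw [Set.indicator_of_mem this]
    · have : u * t ∉ Set.Icc (0:ℝ) t := by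
        intro h
        apply hu
        refine ⟨?_, ?_⟩
        · by_contra hn
          push Not at hn
          have := mul_neg_of_neg_of_pos hn ht
          linarith [h.1]
        · by_contra hn
          push Not at hn
          have := h.2
          nlinarith
      rw [Set.indicator_of_notMem hu]
      simp only
      rw [Set.indicator_of_notMem this]
  rw [h2]
  have h3 := (Homeomorph.mulRight₀ t ht.ne').measurableEmbedding.lintegral_map (μ := volume)
    (f := fun s => (Set.Icc (0:ℝ) t).indicator g s)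
  have h4 : Measure.map (⇑(Homeomorph.mulRight₀ t ht.ne')) volume =
      ENNReal.ofReal |t⁻¹| • (volume : Measure ℝ) := by
    have := Real.map_volume_mul_right ht.ne'
    rw [← this]
    congr 1
  rw [h4, lintegral_smul_measure, abs_of_pos (inv_pos.mpr ht)] at h3
  exact h3.symm

/-- pointwise comparison of the test function with the gain -/
lemma pointwise {ρ c C θ l0 ε t : ℝ} (hρ : 0 < ρ) (hc : 0 < c) (hC : 0 < C) (hθ : 0 < θ)
    (hgain : ∀ l ≥ l0,
      ∀ x y : Fin 3 → ℤ, C * √l ≤ |(x 0 : ℝ) - y 0| → |(x 1 : ℝ) - y 1| ≤ θ * √l →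
      |(x 2 : ℝ) - y 2| ≤ θ * √l → ENNReal.ofReal (c / l) ≤ gain l x y)
    (hε : 0 < ε) (ht : 0 < t) (hlt : l0 ≤ ρ * (ε * t)) (w : Traj 3) (p q : UI) :
    ENNReal.ofReal (if ε ≤ (p : ℝ) - q then ((p : ℝ) - q)⁻¹ *
      hfun (C * √ρ) (θ * √ρ) (fun i => (scaled t w p i - scaled t w q i) / √((p : ℝ) - q)) else 0) ≤
    ENNReal.ofReal (t * ρ / c) * (Set.Icc 0 ((p : ℝ) * t)).indicator
      (fun r => gain (ρ * (p * t - r)) (pos w (p * t)) (pos w r)) (q * t) := by
  by_cases hpq : ε ≤ (p : ℝ) - q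
  · rw [if_pos hpq]
    have hd : 0 < (p : ℝ) - q := by linarith
    have hmem : (q : ℝ) * t ∈ Set.Icc 0 ((p : ℝ) * t) :=
      ⟨mul_nonneg q.2.1 ht.le, by nlinarith⟩
    rw [Set.indicator_of_mem hmem]
    set l : ℝ := ρ * (p * t - q * t) with hl
    have hl' : l = ρ * t * (p - q) := by rw [hl]; ring
    have hlpos : 0 < l := by rw [hl']; positivity
    have hl0 : l0 ≤ l := by
      refine hlt.trans ?_
      rw [hl']
      have : ε * t ≤ t * (p - q) := by nlinarith
      nlinarith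
    have hsq : √l = √ρ * (√t * √((p : ℝ) - q)) := by
      rw [hl', Real.sqrt_mul (by positivity), Real.sqrt_mul hρ.le, mul_assoc]
    have hz : ∀ i, (scaled t w p i - scaled t w q i) / √((p : ℝ) - q) =
        ((pos w (p * t) i : ℝ) - pos w (q * t) i) / (√t * √((p : ℝ) - q)) := by
      intro i
      unfold scaled
      rw [← sub_div, div_div]
    have hst : 0 < √t * √((p : ℝ) - q) := mul_pos (Real.sqrt_pos.mpr ht) (Real.sqrt_pos.mpr hd)
    have hsr : 0 < √ρ := Real.sqrt_pos.mpr hρ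
    set z : Fin 3 → ℝ := fun i => (scaled t w p i - scaled t w q i) / √((p : ℝ) - q) with hzdef
    have hh0 : 0 ≤ hfun (C * √ρ) (θ * √ρ) z := by
      unfold hfun
      exact mul_nonneg (le_min zero_le_one (le_max_left _ _))
        (mul_nonneg (le_max_left _ _) (le_max_left _ _))
    by_cases hpos : 0 < hfun (C * √ρ) (θ * √ρ) z
    · -- all the factors are positive
      have hθρ : 0 < θ * √ρ := mul_pos hθ hsr
      unfold hfun at hpos
      have h0 : C * √ρ < |z 0| := by
        by_contra hn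
        push Not at hn
        have : max 0 (|z 0| - C * √ρ) = 0 := max_eq_left (by linarith)
        rw [this, min_eq_right zero_le_one, zero_mul] at hpos
        exact lt_irrefl _ hpos
      have h1 : |z 1| < θ * √ρ := by
        by_contra hn
        push Not at hn
        have h5 : (1:ℝ) ≤ |z 1| / (θ * √ρ) := by rwa [le_div_iff₀ hθρ, one_mul]
        have : max 0 (1 - |z 1| / (θ * √ρ)) = 0 := max_eq_left (by linarith)
        rw [this, zero_mul, mul_zero] at hpos
        exact lt_irrefl _ hpos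
      have h2 : |z 2| < θ * √ρ := by
        by_contra hn
        push Not at hn
        have h5 : (1:ℝ) ≤ |z 2| / (θ * √ρ) := by rwa [le_div_iff₀ hθρ, one_mul]
        have : max 0 (1 - |z 2| / (θ * √ρ)) = 0 := max_eq_left (by linarith)
        rw [this, mul_zero, mul_zero] at hpos
        exact lt_irrefl _ hpos
      have habs : ∀ i, |z i| = |(pos w (p * t) i : ℝ) - pos w (q * t) i| /
          (√t * √((p : ℝ) - q)) := by
        intro i
        rw [hzdef]
        simp only
        rw [hz i, abs_div, abs_of_pos hst]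
      have hg := hgain l hl0 (pos w (p * t)) (pos w (q * t)) ?_ ?_ ?_
      · have hle1 : hfun (C * √ρ) (θ * √ρ) z ≤ 1 := by
          unfold hfun
          have a1 : min 1 (max 0 (|z 0| - C * √ρ)) ≤ 1 := min_le_left _ _
          have a2 : max 0 (1 - |z 1| / (θ * √ρ)) ≤ 1 :=
            max_le zero_le_one (by have : 0 ≤ |z 1| / (θ * √ρ) := by positivity
                                   linarith)
          have a3 : max 0 (1 - |z 2| / (θ * √ρ)) ≤ 1 :=
            max_le zero_le_one (by have : 0 ≤ |z 2| / (θ * √ρ) := by positivity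
                                   linarith)
          exact mul_le_one₀ a1 (mul_nonneg (le_max_left _ _) (le_max_left _ _))
            (mul_le_one₀ a2 (le_max_left _ _) a3)
        calc ENNReal.ofReal (((p : ℝ) - q)⁻¹ * hfun (C * √ρ) (θ * √ρ) z)
            ≤ ENNReal.ofReal (((p : ℝ) - q)⁻¹) := by
              apply ENNReal.ofReal_le_ofReal
              exact mul_le_of_le_one_right (by positivity) hle1
          _ = ENNReal.ofReal (t * ρ / c) * ENNReal.ofReal (c / l) := by
              rw [← ENNReal.ofReal_mul (by positivity)]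
              congr 1
              rw [hl']
              field_simp
          _ ≤ _ := mul_le_mul_right hg _
      · rw [habs 0, lt_div_iff₀ hst] at h0
        rw [hsq]
        calc C * (√ρ * (√t * √((p : ℝ) - q))) = C * √ρ * (√t * √((p : ℝ) - q)) := by ring
          _ ≤ _ := h0.le
      · rw [habs 1, div_lt_iff₀ hst] at h1
        rw [hsq]
        calc _ ≤ θ * √ρ * (√t * √((p : ℝ) - q)) := h1.le
          _ = _ := by ring
      · rw [habs 2, div_lt_iff₀ hst] at h2
        rw [hsq]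
        calc _ ≤ θ * √ρ * (√t * √((p : ℝ) - q)) := h2.le
          _ = _ := by ring
    · have : hfun (C * √ρ) (θ * √ρ) z = 0 := le_antisymm (not_lt.mp hpos) hh0
      rw [this, mul_zero, ENNReal.ofReal_zero]
      exact zero_le
  · rw [if_neg hpq, ENNReal.ofReal_zero]
    exact zero_le

end I1

/-- Module I1 from the main bound and the lower bound of the gain -/
theorem Phi_bound_of
    (main_bound : ∀ {ν κ ρ γ : ℝ} (_ : 0 < ν) (_ : 0 < κ) (_ : 0 < ρ) (_ : 0 < γ),
      ∃ K : ℝ, 0 < K ∧ ∀ t > 0,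
      ∫⁻ w, (∫⁻ s in Set.Icc 0 t, ∫⁻ r in Set.Icc 0 s, gain (ρ * (s - r)) (pos w s) (pos w r))
        ∂(annLaw 3 ν κ ρ γ t) ≤ ENNReal.ofReal (K * t))
    (gain_lower : ∃ c C θ l0 : ℝ, 0 < c ∧ 0 < C ∧ 0 < θ ∧ 0 < l0 ∧ ∀ l ≥ l0,
      ∀ x y : Fin 3 → ℤ, C * √l ≤ |(x 0 : ℝ) - y 0| → |(x 1 : ℝ) - y 1| ≤ θ * √l →
      |(x 2 : ℝ) - y 2| ≤ θ * √l → ENNReal.ofReal (c / l) ≤ gain l x y)
    {ν κ ρ γ : ℝ} (hν : 0 < ν) (hκ : 0 < κ) (hρ : 0 < ρ) (hγ : 0 < γ) :
    ∃ C θ K : ℝ, 0 < C ∧ 0 < θ ∧ ∀ ε : ℝ, 0 < ε → ε < 1 → ∀ᶠ t : ℝ in atTop,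
      ∫ w, Phi C θ ε (scaled t w) ∂(annLaw 3 ν κ ρ γ t) ≤ K := by
  obtain ⟨c, C, θ, l0, hc, hC, hθ, hl0, hgain⟩ := gain_lower
  obtain ⟨K, hK, hmain⟩ := main_bound hν hκ hρ hγ
  refine ⟨C * √ρ, θ * √ρ, ρ * K / c, mul_pos hC (Real.sqrt_pos.mpr hρ),
    mul_pos hθ (Real.sqrt_pos.mpr hρ), fun ε hε hε1 => ?_⟩
  filter_upwards [eventually_ge_atTop (l0 / (ρ * ε)), eventually_gt_atTop 0] with t htl ht
  have hlt : l0 ≤ ρ * (ε * t) := by
    rw [div_le_iff₀ (by positivity)] at htl
    linarith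
  apply I1.integral_le_of_lintegral _ (by positivity)
  have hstep : ∀ w : Traj 3, ENNReal.ofReal (Phi (C * √ρ) (θ * √ρ) ε (scaled t w)) ≤
      (ENNReal.ofReal (t * ρ / c) * (ENNReal.ofReal t⁻¹ * ENNReal.ofReal t⁻¹)) *
      ∫⁻ s in Set.Icc 0 t, ∫⁻ r in Set.Icc 0 s, gain (ρ * (s - r)) (pos w s) (pos w r) := by
    intro w
    set H : ℝ → ℝ≥0∞ := fun s => ∫⁻ r in Set.Icc 0 s, gain (ρ * (s - r)) (pos w s) (pos w r)
      with hH
    calc ENNReal.ofReal (Phi (C * √ρ) (θ * √ρ) ε (scaled t w))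
        ≤ ∫⁻ p : UI × UI, ENNReal.ofReal (if ε ≤ (p.1 : ℝ) - p.2 then ((p.1 : ℝ) - p.2)⁻¹ *
          hfun (C * √ρ) (θ * √ρ) (fun i => (scaled t w p.1 i - scaled t w p.2 i) /
            √((p.1 : ℝ) - p.2)) else 0) := I1.ofReal_integral_le _
      _ ≤ ∫⁻ p : UI × UI, ENNReal.ofReal (t * ρ / c) * (Set.Icc 0 ((p.1 : ℝ) * t)).indicator
          (fun r => gain (ρ * (p.1 * t - r)) (pos w (p.1 * t)) (pos w r)) (p.2 * t) :=
          lintegral_mono fun p => I1.pointwise hρ hc hC hθ hgain hε ht hlt w p.1 p.2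
      _ = ENNReal.ofReal (t * ρ / c) * ∫⁻ p : UI × UI, (Set.Icc 0 ((p.1 : ℝ) * t)).indicator
          (fun r => gain (ρ * (p.1 * t - r)) (pos w (p.1 * t)) (pos w r)) (p.2 * t) :=
          lintegral_const_mul' _ _ ENNReal.ofReal_ne_top
      _ ≤ ENNReal.ofReal (t * ρ / c) * ∫⁻ p : UI, ∫⁻ q : UI,
          (Set.Icc 0 ((p : ℝ) * t)).indicator
          (fun r => gain (ρ * (p * t - r)) (pos w (p * t)) (pos w r)) (q * t) := by
          apply mul_le_mul_right
          exact lintegral_prod_le (μ := (volume : Measure UI)) (ν := (volume : Measure UI))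
            (fun p : UI × UI => (Set.Icc 0 ((p.1 : ℝ) * t)).indicator
            (fun r => gain (ρ * (p.1 * t - r)) (pos w (p.1 * t)) (pos w r)) (p.2 * t))
      _ ≤ ENNReal.ofReal (t * ρ / c) * ∫⁻ p : UI, ENNReal.ofReal t⁻¹ * H (p * t) := by
          apply mul_le_mul_right
          apply lintegral_mono
          intro p
          simp only
          rw [I1.lintegral_UI_scale ht (fun q => (Set.Icc 0 ((p : ℝ) * t)).indicator
            (fun r => gain (ρ * (p * t - r)) (pos w (p * t)) (pos w r)) q)]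
          apply mul_le_mul_right
          rw [hH]
          simp only
          rw [lintegral_indicator measurableSet_Icc]
          exact lintegral_mono' (Measure.restrict_mono_set _ (fun x hx => hx) |>.trans
            (Measure.restrict_mono le_rfl Measure.restrict_le_self)) le_rfl
      _ = _ := by
          rw [lintegral_const_mul' _ _ ENNReal.ofReal_ne_top, I1.lintegral_UI_scale ht H]
          ring
  calc ∫⁻ w, ENNReal.ofReal (Phi (C * √ρ) (θ * √ρ) ε (scaled t w)) ∂(annLaw 3 ν κ ρ γ t)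
      ≤ ∫⁻ w, (ENNReal.ofReal (t * ρ / c) * (ENNReal.ofReal t⁻¹ * ENNReal.ofReal t⁻¹)) *
        (∫⁻ s in Set.Icc 0 t, ∫⁻ r in Set.Icc 0 s, gain (ρ * (s - r)) (pos w s) (pos w r))
        ∂(annLaw 3 ν κ ρ γ t) := lintegral_mono hstep
    _ = (ENNReal.ofReal (t * ρ / c) * (ENNReal.ofReal t⁻¹ * ENNReal.ofReal t⁻¹)) *
        ∫⁻ w, (∫⁻ s in Set.Icc 0 t, ∫⁻ r in Set.Icc 0 s,
          gain (ρ * (s - r)) (pos w s) (pos w r)) ∂(annLaw 3 ν κ ρ γ t) :=
        lintegral_const_mul' _ _ (ENNReal.mul_ne_top ENNReal.ofReal_ne_top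
          (ENNReal.mul_ne_top ENNReal.ofReal_ne_top ENNReal.ofReal_ne_top))
    _ ≤ (ENNReal.ofReal (t * ρ / c) * (ENNReal.ofReal t⁻¹ * ENNReal.ofReal t⁻¹)) *
        ENNReal.ofReal (K * t) := mul_le_mul_right (hmain t ht) _
    _ = ENNReal.ofReal (ρ * K / c) := by
        rw [← ENNReal.ofReal_mul (by positivity), ← ENNReal.ofReal_mul (by positivity),
          ← ENNReal.ofReal_mul (by positivity)]
        congr 1
        field_simp

end Pool.Agent.H99.Trap
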